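import Pool.Agent.N571.TLF.Contact

/-!
# Powers of braids in diagrams on surfaces: uniform order of contact with a unit Jones polynomial

Diagrams (starting library `Pool.Agent.H891R2.Jones.Diagram`): `Diagram P` (oriented diagrams with marked points `P`;
the arcs only say which marked points are joined, so these are diagrams of links in thickened surfaces, that is, of
virtual links), `Diagram.IsClosed` (the pieces fit together to closed oriented curves), `Diagram.fPoly` (the normalised
bracket `(-A^{-3})^{w(D)} ⟨D⟩`, a Laurent polynomial in `A = T 1`, all loops counting equally), `Outer m` (the part of an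
oriented diagram outside a disc (a box) through which `m` strands run, with arbitrary directions `up`),
`Outer.close` (fills the rest of the box with vertical strands).  Several boxes are the case of one box: take the
boxes side by side.  Starting library `Pool.Agent.W639.RB.Defs`: `Letter m` (the letters `σ_i^{±1}` of the braid group on
`m` strands; the second component of a letter is the number `i` of the first one of the two strands, counted from `0`).

Definitions of `Pool.Agent.Y463.SK.Defs` (starting library), for words `w` (lists of letters): `powW w n` (the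
power `w^n`, `n ∈ ℤ`), `permW w` (the permutation of the strands), `IsPure w` (`permW w = 1`), `dia O w` (the
diagram obtained by drawing `w` in the box of `O` and filling the rest of the box with vertical strands),
`multiW w v n = w_1^{n_1} v_1 w_2^{n_2} v_2 ⋯ w_k^{n_k} v_k`.

New definitions (`Pool.Agent.N571.TLF`): `expo Λ s q` is the vector of the exponents `n_i = ∑_j Λ_{ij} q_j + s_i`;
`bnd Λ b A = ∑_j (∏_{i : Λ_{ij} ≠ 0} C(b_i, ⌊b_i/2⌋)) ∏_{l ≠ j} |A_l|`.

Proof.  Modulo `A - 1` a pure braid acts trivially in the Temperley-Lieb algebra, so that the Taylor coefficients of the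
normalised brackets at `A = 1` are polynomial functions of the exponents on every residue class modulo `m!`.  By
Hilbert's basis theorem finitely many of them decide whether all the others agree with those of `F`.  The number of
the exceptions is bounded by means of annihilating polynomials of the braids of degree `C(b, ⌊b/2⌋)`, congruent to
`(x - 1)^{C(b, ⌊b/2⌋)}` modulo `A + 1` in a strong sense.
-/

set_option autoImplicit false

namespace Pool.Agent.Results.MP_7bc610_gt.BraidPowersContact

open Finset LaurentPolynomial Pool.Agent.H891R2.Jones Pool.Agent.W639.RB Pool.Agent.Y463.SK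
  Pool.Agent.N571.TLF

open Classical in
/-- Let `O` be the part of a diagram of a link in a thickened surface outside a box through which `m` strands run, and
let `w_1, …, w_k`, `v_1, …, v_k` be arbitrary braid words on `m` strands.  For `n ∈ ℤ^k` let `D(n)` be the diagram on
the same surface obtained by drawing the braid `w_1^{n_1} v_1 w_2^{n_2} v_2 ⋯ w_k^{n_k} v_k` in the box.  Let `F` be a
Laurent polynomial, for example `F = 1` (unit Jones polynomial).

* `D(n)` is a closed oriented diagram if the permutation of the braid preserves the directions of the strands.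
* There is a number `M` such that for all `n ∈ ℤ^k` the normalised bracket of `D(n)` is equal to `F` if it agrees with
  `F` up to terms of order `M` at `A = 1`.
* Let `w_i` only use the `b_i` strands with the numbers `off_i, …, off_i + b_i - 1`, let `Λ` be an integral `k × r`
  matrix such that all `w_i^{Λ_{ij}}` are pure (no condition if the `w_i` are pure), and `s ∈ ℤ^k`.  Either all the
  diagrams `D(Λ q + s)`, `q ∈ ℤ^r`, have the normalised bracket `F`, or for all finite sets `A_1, …, A_r` of integers
  the normalised brackets of at most `∑_j d_j ∏_{l ≠ j} |A_l|` of the `∏_l |A_l|` diagrams `D(Λ q + s)`,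
  `q ∈ A_1 × ⋯ × A_r`, agree with `F` up to terms of order `M` at `A = 1`; here `d_j` is the product of the binomial
  coefficients `C(b_i, ⌊b_i/2⌋)` for those `i` with `Λ_{ij} ≠ 0`, which does not depend on `M`, on the words, on the
  surface or on the diagram. -/
theorem result (m k : ℕ) (hm : 0 < m) (O : Outer m) (hO : O.close.IsClosed) 
    (w v : Fin k → List (Letter m)) (F : ℤ[T;T⁻¹]) :
    (∀ n : Fin k → ℤ, (∀ j, O.up (permW (multiW w v n) j) = O.up j) → 
      (dia O (multiW w v n)).IsClosed) ∧ 
    ∃ M : ℕ, 
      (∀ n : Fin k → ℤ, (T 1 - 1 : ℤ[T;T⁻¹]) ^ M ∣ (dia O (multiW w v n)).fPoly - F → 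
        (dia O (multiW w v n)).fPoly = F) ∧ 
      ∀ (off b : Fin k → ℕ), (∀ i, 0 < b i) → (∀ i, off i + b i ≤ m) → 
        (∀ i, ∀ x ∈ w i, off i ≤ x.2 ∧ (x.2 : ℕ) + 1 < off i + b i) → 
      ∀ (r : ℕ) (Λ : Fin k → Fin r → ℤ) (s : Fin k → ℤ), (∀ i j, IsPure (powW (w i) (Λ i j))) → 
        (∀ q, (dia O (multiW w v (expo Λ s q))).fPoly = F) ∨
        ∀ A : Fin r → Finset ℤ, 
          ((Fintype.piFinset A).filter (fun q => 
            (T 1 - 1 : ℤ[T;T⁻¹]) ^ M ∣ (dia O (multiW w v (expo Λ s q))).fPoly - F)).card ≤ 
              bnd Λ b A := by
  obtain ⟨M, hM⟩ := contact_one hm O w v F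
  refine ⟨dia_closed O w v hO, M, hM, ?_⟩
  intro off b hb hoff hw r Λ s hΛ
  refine (family hm O w v Λ s hΛ off b hb hoff hw F).imp id fun h A => 
    le_trans (Finset.card_le_card fun q hq => ?_) (h A)
  rw [Finset.mem_filter] at hq ⊢
  exact ⟨hq.1, hM _ hq.2⟩

end Pool.Agent.Results.MP_7bc610_gt.BraidPowersContact
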