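import Pool.Agent.N569.VT.Contact


/-!
# Jones polynomials of all diagrams on surfaces with boundedly many crossings outside a box

Diagrams (starting library `Pool.Agent.H891R2.Jones.Diagram`): `Diagram P` (oriented diagrams with marked points `P`;
the arcs only say which marked points are joined, so these are diagrams of links in thickened surfaces, that is, of
virtual links), `Diagram.IsClosed` (the pieces fit together to closed oriented curves), `Diagram.fPoly` (the normalised bracket
`(-A^{-3})^{w(D)} ⟨D⟩`, a Laurent polynomial in `A = T 1`), `Outer m` (the part of an oriented diagram outside a disc (a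
box) through which `m` strands run, with arbitrary directions `up`), `Outer.close` (vertical strands in the box).
Several boxes are the case of one box: take the boxes side by side.  `Pool.Agent.W639.RB.Defs`: `Letter m` (the letters
`σ_i^{±1}`).  `Pool.Agent.Y463.SK.Defs`, for words `w` (lists of
letters): `permW w` (the permutation of the strands), `dia O w` (the diagram obtained by drawing `w` in the box of `O`
and filling the rest of the box with vertical strands), `multiW w v n = w_1^{n_1} v_1 ⋯ w_r^{n_r} v_r`.

Proof.  The polynomials `f` of the diagrams with the words `w_1^{n_1} v_1 ⋯` in the box of `O` depend on `O` only by the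
number of its crossings, its writhe, the directions of the strands, and, for every state of `O`, by the way in which the
`2 m` ends at the box are joined, and by the number of the curves which do not meet the box.  The last number is
bounded by means of the value of `f` at `A = 1`.  So there are only finitely many kinds of outsides, and for each of
them there is one order of contact (Hilbert's basis theorem, `Pool.Agent.N571.TLF`).
-/

set_option autoImplicit false

namespace Pool.Agent.Results.MP_7bc610_gt.VirtualBoundedOutside

open Finset LaurentPolynomial Pool.Agent.H891R2.Jones Pool.Agent.W639.RB Pool.Agent.N569.VT Pool.Agent.Y463.SK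
  Pool.Agent.N571.TLF

/-- Let `F` be a Laurent polynomial with `F(1) ≠ 0`, for example `F = 1` (unit Jones polynomial).  For all numbers
`m ≥ 1`, `N`, `r`, `ℓ` there is a number `M` with the following property.  Let `O` be the part of any diagram of a link on
any closed oriented surface outside a box through which `m` strands run in arbitrary directions, with at most `N`
crossings, let `w_1, …, w_r`, `v_1, …, v_r` be arbitrary braid words on `m` strands with at most `ℓ` letters, `n ∈ ℤ^r`,
and let `D` be the diagram with the braid `w_1^{n_1} v_1 ⋯ w_r^{n_r} v_r` in the box (closed and oriented if the braid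
preserves the directions).  If the normalised bracket of `D` agrees with `F` up to terms of order `M` at `A = 1`, then
it is equal to `F`.

So finitely many Taylor coefficients (which are finite type invariants) decide whether a diagram of this kind has unit
Jones polynomial, and their number does not depend on the surface, on the outside, on the braids or on the exponents,
only on `m`, `N`, `r`, `ℓ`; the numbers of crossings are not bounded. -/
theorem result (m N r ℓ : ℕ) (hm : 1 ≤ m) (F : ℤ[T;T⁻¹]) (hF : (F.coeff.sum fun _ c => c) ≠ 0) : ∃ M : ℕ,
    ∀ O : Outer m, O.close.IsClosed → O.crossings.length ≤ N →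
    ∀ w v : Fin r → List (Letter m), (∀ i, (w i).length ≤ ℓ) → (∀ i, (v i).length ≤ ℓ) → ∀ n : Fin r → ℤ,
      ((∀ j, O.up (permW (multiW w v n) j) = O.up j) → (dia O (multiW w v n)).IsClosed) ∧
      ((T 1 - 1 : ℤ[T;T⁻¹]) ^ M ∣ (dia O (multiW w v n)).fPoly - F → (dia O (multiW w v n)).fPoly = F) := by
  obtain ⟨d₁, h₁⟩ := uni_contact hm N r ℓ F hF
  exact ⟨d₁, fun O hO hN w v hw hv n => ⟨dia_closed O w v hO n, h₁ O hN w v hw hv n⟩⟩

end Pool.Agent.Results.MP_7bc610_gt.VirtualBoundedOutside
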