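import Pool.Agent.N569.VT.Fin

/-!
# Positive virtual diagrams with full twists on bundles of strands

Starting library: `Pool.Agent.H891R2.Jones.*` (virtual link diagrams as abstract diagrams: marked points, arcs and
crossings, planar or not; `Diagram.IsClosed`, `Diagram.writhe`, `Diagram.loops σ`, the number of the curves of the state
`σ` (`σ i = true`: the crossing `i` has the smoothing of type `A`), `Diagram.fPoly`, the normalised bracket
`(-A^{-3})^{w(D)} ⟨D⟩`, a Laurent polynomial in `A = T 1`; `Outer m`: the part of a diagram outside a box through which
`m` strands run, `O.up j`: the `j`-th strand runs upwards, `O.close`: the diagram with vertical strands in the box),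
`Pool.Agent.W639.RB.Defs` (`draw O W`: the braid word `W` is drawn in the box of `O`; a letter is a pair of its sign,
`true` for a positive crossing, and of the number `i` of the first of the two strands, `0 ≤ i`, `i + 1 < m`),
`Pool.Agent.TH561.PB.State2` (`TW true n k a`: the word of `a` positive full twists of the strands `k, …, k + n - 1`),
`Pool.Agent.W639.RB.Words` (`expo W`: the exponent sum of `W`).

New, `Pool.Agent.N569.TW.Defs`: `Tw` (braid words in which full twists on bundles are marked: `letter b i t`, and
`box n k a u t`: the word `u`, then `a` full twists of the strands `k, …, k + n - 1`, then `t`; `u` may contain boxes
again); `Tw.word` (the braid word); `Tw.Fits t m 0` (all strands exist, the inner word of a box is on the strands of the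
box, and every box has at least three strands and at least one full twist); `Tw.debt` (the number of the negative
letters which are not paid: `a` full twists on `n` strands pay for up to `n a` negative letters of the inner word of
their box, also for unpaid letters of inner boxes); `Tw.boxes` (the number of the boxes).

There is no planarity in an `Outer m`, and the box may be as wide as one likes.  So diagrams with several boxes are
covered: put the boxes side by side into one box, `t` being the product of their words.

Proof.  The Jones–Wenzl-type expansion of the box (for `a` full twists of `n` strands after a word with at most
`n a` unpaid negative letters all terms except for the identity are small) holds in every linkage of the strands outside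
of the box, so it can be used in each of the `2^n` states of the outside.  In a diagram whose pieces start and end alike
the first change of the state of the oriented smoothings does not increase the number of the curves.
-/

set_option autoImplicit false

namespace Pool.Agent.Results.MP_7bc610_gt.VirtualTwistedBundles

open Finset LaurentPolynomial Pool.Agent.H891R2.Jones Pool.Agent.W639.RB Pool.Agent.TH561 Pool.Agent.N569.TW
  Pool.Agent.N569.VT

/-- Let `O` be the outside of a box in a diagram of a virtual link (a classical one or one on a surface), all of whose
crossings are positive and where the `m ≥ 1` strands of the box run in parallel directions.  Draw in the box a braid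
word `t` of letters of arbitrary signs and of positive full twists on bundles of at least three strands (also nested)
such that all negative letters are paid: each one is in a bundle, and `a` full twists of `n` strands pay for `n a`
letters.  Let `D` be the diagram, `w` its writhe, and `s` the number of the Seifert circles of `O` with vertical strands
in the box.

(1) `D` is a closed oriented diagram and its writhe is `w = n + expo t.word`, `n` being the number of the crossings of
`O`.

(2) The coefficient of the normalised bracket of `D` in the degree `2 (s - 1) - 2 w` is `1` or `-1`, and all
coefficients of larger degree vanish; that is, `min deg V = (w - s + 1) / 2` for the Jones polynomial `V(t)`,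
`t = A^{-4}`, with the coefficient `± 1`.

(3) If the Jones polynomial of `D` is the one of the unlink of `c + 1` components, in particular if `f = 1` (`c = 0`),
then there are no full twists and no negative crossings in the box, the letters of the word are at pairwise different
places, and `D` has only `s - 1 - c` crossings.  (Remark: such a `D` has `s` Seifert circles and `c + 1` components, so
its Seifert graph is a forest, and all its crossings can be removed by Reidemeister moves `I`.)  So apart from these
trivial diagrams no diagram of this kind has unit Jones polynomial, whether it is stably equivalent to a classical knot
or not. -/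
theorem result (m : ℕ) (hm : 1 ≤ m) (O : Outer m) (hO : O.close.IsClosed) (hup : ∀ j, O.up j = true)
    (hpos : ∀ x ∈ O.crossings, x.sign = 1) (t : Tw) (ht : t.Fits m 0) (hd : t.debt = 0)
    (w : ℤ) (hw : w = O.crossings.length + expo t.word) (s : ℕ) (hs : s = O.close.loops (fun _ => true)) :
    ((draw O t.word).close.IsClosed ∧ (draw O t.word).close.writhe = w) ∧
    (((draw O t.word).close.fPoly.coeff (2 * (s - 1) - 2 * w) = 1 ∨
      (draw O t.word).close.fPoly.coeff (2 * (s - 1) - 2 * w) = -1) ∧
      ∀ j, 2 * (s - 1) - 2 * w < j → (draw O t.word).close.fPoly.coeff j = 0) ∧
    (∀ c : ℕ, (draw O t.word).close.fPoly = (-T 2 - T (-2)) ^ c →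
      t.boxes = 0 ∧ (∀ x ∈ t.word, x.1 = true) ∧ (t.word.map Prod.snd).Nodup ∧
        O.crossings.length + t.word.length + c + 1 = s) := by
  have hW : ∀ x ∈ t.word, x.2 + 1 < m := fun x hx => by
    have := (t.word_mem m 0 ht x hx).2; omega
  have hN := near_closed _ hO
  have hG : Good O := ⟨fun i => first_flip O hN hpos i, fun i hi => first_e O hN hup hpos i hi⟩
  obtain ⟨h1, h2, h3⟩ := pos_mainO hm O hG hup hpos t ht hd
  have hwr := writhe O hup t.word hW
  rw [writhe_pos O.close hpos] at hwr
  rw [hw, hs]
  exact ⟨⟨closed O hO hup t.word hW, hwr⟩, ⟨h1, h2⟩, h3⟩

end Pool.Agent.Results.MP_7bc610_gt.VirtualTwistedBundles
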